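import Pool.Agent.Y45.MON.StmS

/-!
# Project MON, job S4 (helper571): pull back of pairs
-/

set_option autoImplicit false

namespace Pool.Agent.Y571.MON

open Pool.Agent.TH54.BU Pool.Agent.Y45.MON

theorem fin_conj {G : Type} [Group G] {g : G} (h : IsOfFinOrder g) (u : G) :
    IsOfFinOrder (u * g * u⁻¹) := by
  have := MonoidHom.isOfFinOrder (MulAut.conj u).toMonoidHom h
  simpa using this

theorem exists_red (m : ℕ) (hm : 0 < m) (k : ℤ) :
    ∃ k' : ℤ, 2 * |k'| ≤ m ∧ (m : ℤ) ∣ k - k' := by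
  have hm' : (0 : ℤ) < m := by exact_mod_cast hm
  have h1 := Int.emod_nonneg k hm'.ne'
  have h2 := Int.emod_lt_of_pos k hm'
  have h3 : (m : ℤ) ∣ k - k % m := Int.dvd_self_sub_emod
  rcases le_or_gt (2 * (k % m)) m with h | h
  · exact ⟨k % m, by rw [abs_of_nonneg h1]; exact h, h3⟩
  · refine ⟨k % m - m, ?_, ?_⟩
    · rw [abs_of_nonpos (by linarith)]
      linarith
    · have : k - (k % m - m) = (k - k % m) + m := by ring
      rw [this]
      exact dvd_add h3 (dvd_refl _)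

theorem mk_red {G : Type} [Group G] {H : GH G} {c θ T : ℕ} {L : LS H c θ T} {n : L.ι → ℕ}
    {M : Subgroup G} [M.Normal] (hF : Fv L n M) (i : L.ι) {k k' : ℤ} (h : (n i : ℤ) ∣ k - k') :
    ((L.x i ^ k : G) : G ⧸ M) = ((L.x i ^ k' : G) : G ⧸ M) := by
  obtain ⟨l, hl⟩ := h
  have h1 := hF.rot i 1 l
  have h2 : L.x i ^ ((n i : ℤ) * l) ∈ M := by simpa [LS.rt] using h1
  rw [eq_comm, QuotientGroup.eq, ← zpow_neg, ← zpow_add, show -k' + k = (n i : ℤ) * l by linarith]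
  exact h2

/-- case 2: no new torsion element -/
theorem case_new (hN : NewStmt) (G : Type) [Group G] (H : GH G) (c θ T : ℕ) (L : LS H c θ T)
    (n : L.ι → ℕ) (M : Subgroup G) [M.Normal] (hF : Fv L n M) (M1 : ℕ)
    (h3 : ∀ i, Odd (n i)) (h4 : cst L 0 0 ≤ M1)
    (h5 : ∀ i, Nat.Coprime (n i) M1) (h7 : ∀ i, 2 * (cst L 0 0 * M1) ≤ n i)
    (h8 : ∀ i, 4 * cstT L ≤ n i) (i : L.ι) (k : ℤ) (g : G)
    (hab : ((L.x i ^ k : G) : G ⧸ M) * (g : G ⧸ M) ≠ (g : G ⧸ M) * ((L.x i ^ k : G) : G ⧸ M))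
    (hP : IsOfFinOrder (P0 M1 ((L.x i ^ k : G) : G ⧸ M) (g : G ⧸ M))) : False := by
  have hn : 0 < n i := (h3 i).pos
  obtain ⟨k', hk1, hk2⟩ := exists_red (n i) hn k
  rw [mk_red hF i hk2] at hab hP
  clear hk2
  have hcomm : ∀ s t : ℤ, ((L.x i ^ s : G) : G ⧸ M) * ((L.x i ^ t : G) : G ⧸ M) =
      ((L.x i ^ t : G) : G ⧸ M) * ((L.x i ^ s : G) : G ⧸ M) := by
    intro s t
    rw [← QuotientGroup.mk_mul, ← QuotientGroup.mk_mul, ← zpow_add, ← zpow_add, add_comm]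
  have hg1 : ∀ s : ℤ, L.x i ^ s * g ∉ M := by
    intro s hs
    apply hab
    have : (g : G ⧸ M) = ((L.x i ^ (-s) : G) : G ⧸ M) := by
      rw [eq_comm, QuotientGroup.eq, ← zpow_neg, neg_neg]
      exact hs
    rw [this]
    exact hcomm _ _
  have hg2 : ∀ s : ℤ, L.x i ^ s * g⁻¹ ∉ M := by
    intro s hs
    apply hab
    have : (g : G ⧸ M) = ((L.x i ^ s : G) : G ⧸ M) := by
      rw [QuotientGroup.eq]
      have h := ‹M.Normal›.conj_mem _ hs g⁻¹
      have h' : g⁻¹ * (L.x i ^ s * g⁻¹) * g⁻¹⁻¹ = g⁻¹ * L.x i ^ s := by group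
      rwa [h'] at h
    rw [this]
    exact hcomm _ _
  have hnd : ¬ (n i : ℤ) ∣ k' := by
    intro hd
    apply hab
    have h0 : ((L.x i ^ k' : G) : G ⧸ M) = 1 := by
      rw [mk_red hF i (k' := 0) (by simpa using hd)]
      simp
    rw [h0, one_mul, mul_one]
  have hk0 : k' ≠ 0 := by
    rintro rfl
    exact hnd (dvd_zero _)
  have hpow : ((L.x i ^ k' : G) : G ⧸ M) ^ M1 = ((L.x i ^ (k' * M1) : G) : G ⧸ M) := by
    rw [← QuotientGroup.mk_pow, zpow_mul, zpow_natCast]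
  unfold P0 at hP
  rw [hpow] at hP
  rcases le_or_gt ((cst L 0 0 : ℕ) : ℤ) |k'| with hc | hc
  · obtain ⟨k2, hk3, hk4⟩ := exists_red (n i) hn (k' * M1)
    have hk20 : k2 ≠ 0 := by
      rintro rfl
      rw [sub_zero] at hk4
      have hcop : IsCoprime (n i : ℤ) (M1 : ℤ) := by
        rw [Nat.isCoprime_iff_coprime]
        exact h5 i
      exact hnd (hcop.dvd_of_dvd_mul_right hk4)
    rw [mk_red hF i hk4] at hP
    exact hN G H c θ T L n M hF h8 i k' k2 g hc hk1 hk20 hk3 hg1 (by simpa using hP)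
  · have hM1 : (cst L 0 0 : ℤ) ≤ M1 := by exact_mod_cast h4
    have hk0' : 1 ≤ |k'| := Int.one_le_abs hk0
    have hb1 : (cst L 0 0 : ℤ) ≤ |k' * M1| := by
      rw [abs_mul, Nat.abs_cast]
      nlinarith
    have hb2 : 2 * |k' * M1| ≤ n i := by
      have h7' : 2 * ((cst L 0 0 : ℤ) * M1) ≤ n i := by exact_mod_cast h7 i
      rw [abs_mul, Nat.abs_cast]
      have : |k'| * (M1 : ℤ) ≤ (cst L 0 0 : ℤ) * M1 :=
        mul_le_mul_of_nonneg_right hc.le (by positivity)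
      linarith
    refine hN G H c θ T L n M hF h8 i (k' * M1) k' g⁻¹ hb1 hb2 hk0 hk1 hg2 ?_
    have h := fin_conj hP ((g : G ⧸ M)⁻¹ * ((L.x i ^ k' : G) : G ⧸ M)⁻¹)
    convert h using 1
    rw [inv_inv, QuotientGroup.mk_mul, QuotientGroup.mk_mul, QuotientGroup.mk_mul,
      QuotientGroup.mk_inv]
    group

theorem t_PB (hK2 : Key2Stmt) (hN : NewStmt) : PbStmt := by
  intro G _ H c θ T L K B p L1 Θ n E M _ Q S M1 R0 h1 h2 h3 h4 h5 h6 h7 h8 h9 h10 a b ha hab hP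
  obtain ⟨g, rfl, hg | hg⟩ := h2 a ha
  · obtain ⟨v, hv⟩ := h1 g hg
    have hex : ∃ l : ℕ, ∃ y : G, (y : G ⧸ M) = (v : G ⧸ M) * b * (v : G ⧸ M)⁻¹ ∧ H.len y = l := by
      obtain ⟨y, hy⟩ := QuotientGroup.mk_surjective ((v : G ⧸ M) * b * (v : G ⧸ M)⁻¹)
      exact ⟨_, y, hy, rfl⟩
    classical
    obtain ⟨b1, hb1, hb2⟩ := Nat.find_spec hex
    have hmin : ∀ y : G, (y : G ⧸ M) = (v : G ⧸ M) * b * (v : G ⧸ M)⁻¹ → H.len b1 ≤ H.len y := by
      intro y hy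
      rw [hb2]
      exact Nat.find_min' hex ⟨y, hy, rfl⟩
    have ha1 : (((v * g * v⁻¹ : G)) : G ⧸ M) = (v : G ⧸ M) * (g : G ⧸ M) * (v : G ⧸ M)⁻¹ := by
      rw [QuotientGroup.mk_mul, QuotientGroup.mk_mul, QuotientGroup.mk_inv]
    refine ⟨v * g * v⁻¹, b1, (v : G ⧸ M), fin_conj hg v, hv, ?_, ha1, hb1⟩
    by_contra hlen
    push Not at hlen
    have hg1 : v * g * v⁻¹ ≠ 1 := by
      intro h
      have : g = 1 := by simpa using h
      apply hab
      rw [this]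
      simp
    have hgM : (v * g * v⁻¹) ^ M1 ≠ 1 := by
      intro h
      have hp := S.tor _ (fin_conj hg v)
      have d1 := orderOf_dvd_of_pow_eq_one h
      have d2 := orderOf_dvd_of_pow_eq_one hp
      have d3 := Nat.dvd_gcd d2 d1
      rw [h6] at d3
      have := Nat.dvd_one.1 d3
      rw [orderOf_eq_one_iff] at this
      exact hg1 this
    have hl1 : H.len (v * g * v⁻¹) ≤ 1 := by simpa using hv 1
    have hl2 : H.len ((v * g * v⁻¹) ^ M1) ≤ 1 := by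
      have := hv M1
      rwa [zpow_natCast] at this
    refine hK2 G H c θ T L K B p L1 Θ n E M Q S h9 (v * g * v⁻¹) ((v * g * v⁻¹) ^ M1) b1
      (fin_conj hg v) hg1 hl1 ((fin_conj hg v).pow) hgM hl2 (by omega) ?_ ?_
    · intro m hm
      apply hmin
      rw [QuotientGroup.mk_mul, (QuotientGroup.eq_one_iff m).2 hm, one_mul, hb1]
    · have h := fin_conj hP (v : G ⧸ M)
      convert h using 1
      unfold P0
      rw [QuotientGroup.mk_mul, QuotientGroup.mk_mul, QuotientGroup.mk_mul, QuotientGroup.mk_pow,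
        QuotientGroup.mk_inv, ha1, hb1, conj_pow]
      group
  · exfalso
    obtain ⟨i, u, k, rfl⟩ := hg
    obtain ⟨y, hy⟩ := QuotientGroup.mk_surjective ((u : G ⧸ M)⁻¹ * b * (u : G ⧸ M))
    have hb : b = (u : G ⧸ M) * (y : G ⧸ M) * (u : G ⧸ M)⁻¹ := by
      rw [hy]
      group
    subst hb
    have ha' : ((u * L.x i ^ k * u⁻¹ : G) : G ⧸ M) =
        (u : G ⧸ M) * ((L.x i ^ k : G) : G ⧸ M) * (u : G ⧸ M)⁻¹ := by
      rw [QuotientGroup.mk_mul, QuotientGroup.mk_mul, QuotientGroup.mk_inv]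
    rw [ha'] at hab hP
    refine case_new hN G H c θ T L n M S.fil M1 h3 h4 h5 h7 h8 i k y ?_ ?_
    · intro h
      apply hab
      have e1 : (u : G ⧸ M) * ((L.x i ^ k : G) : G ⧸ M) * (u : G ⧸ M)⁻¹ *
          ((u : G ⧸ M) * (y : G ⧸ M) * (u : G ⧸ M)⁻¹) =
          (u : G ⧸ M) * (((L.x i ^ k : G) : G ⧸ M) * (y : G ⧸ M)) * (u : G ⧸ M)⁻¹ := by group
      have e2 : ((u : G ⧸ M) * (y : G ⧸ M) * (u : G ⧸ M)⁻¹) *
          ((u : G ⧸ M) * ((L.x i ^ k : G) : G ⧸ M) * (u : G ⧸ M)⁻¹) =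
          (u : G ⧸ M) * ((y : G ⧸ M) * ((L.x i ^ k : G) : G ⧸ M)) * (u : G ⧸ M)⁻¹ := by group
      rw [e1, e2, h]
    · have h := fin_conj hP (u : G ⧸ M)⁻¹
      convert h using 1
      unfold P0
      rw [conj_pow]
      group

end Pool.Agent.Y571.MON
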